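import Pool.Agent.H446.AP9.Orb

/-!
# The dynamical Lehmer conjecture and short orbits modulo places

Let `f` be a polynomial of degree `d ≥ 2` with integral coefficients, and let `κ > 0`. For an algebraic number `α` and a
place of `ℚ(α)` over a prime `p` we say that the orbit of `α` is short at the place if `α` is integral at the place, `p` does
not divide the leading coefficient of `f`, and the orbit `α, f(α), f(f(α)), …` has at most `n` elements modulo `p` for a
number `n` with `n d ^ n ≤ κ p`. (So it has at most about `log p / log d` elements.) Let `ρ_p(α)` be the proportion of the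
places over `p`, counted with their local degrees, at which the orbit is short.

**Theorem.** `∑_{p ≤ N} ρ_p(α) ^ 2 log p / p ≤ 2 κ ĥ_f(α) + C(f, κ)` for all algebraic numbers `α` of degree `N`, where
`ĥ_f` is the canonical height. Moreover there are at most `x = C(f, κ, β, M) y exp (2 κ H / β ^ 2)` algebraic numbers `α`
(with their conjugates), of all degrees together, with `ĥ_f(α) ≤ H` for which the sum of `(1 - ρ_p(α)) log p / p` over the
primes `y < p ≤ x` is at most `(1 - β) log (x / y) + M`. With the Weil height instead of the canonical height both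
statements hold with constants which depend neither on `f` nor on its degree.

So the inequality of the dynamical Lehmer conjecture (and much more) holds for the numbers `α` whose orbits are short at a
positive proportion of the places over many primes `p ≤ N`: the conjecture for `f` is equivalent to its restriction to the
numbers with `∑_{p ≤ N} ρ_p(α) ^ 2 log p / p ≤ C(f, κ)`, for every `κ`.
-/

set_option autoImplicit false

namespace Pool.Agent.Results.MP_2194ec_nt.ShortOrbits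

open Polynomial Finset

open Pool.Agent.H446.AP6 (ZZ OA)

/-- `P` is the minimal polynomial over `ℤ` of an algebraic number `α`, and of its conjugates. -/
def IsMinpoly (P : ℤ[X]) : Prop := Irreducible P ∧ 0 < P.natDegree ∧ 0 < P.leadingCoeff

/-- The absolute logarithmic height of the roots of `P` is at most `H`. -/
def HeightLE (P : ℤ[X]) (H : ℝ) : Prop :=
  (P.map (Int.castRingHom ℂ)).mahlerMeasure ≤ Real.exp (P.natDegree * H)

/-- The absolute logarithmic height of the algebraic number `z` is `h`. -/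
def IsHeight (z : ℂ) (h : ℝ) : Prop := ∃ P : ℤ[X], IsMinpoly P ∧ aeval z P = 0 ∧
  (P.map (Int.castRingHom ℂ)).mahlerMeasure = Real.exp (P.natDegree * h)

/-- `Φ` is the canonical height of the polynomial `f`: the two properties which determine it. -/
structure IsCanonicalHeight (f : ℤ[X]) (Φ : ℂ → ℝ) : Prop where
  map : ∀ z : ℂ, IsAlgebraic ℚ z → Φ (aeval z f) = f.natDegree * Φ z
  near : ∃ C : ℝ, ∀ (z : ℂ) (h : ℝ), IsHeight z h → |Φ z - h| ≤ C

/-- A prime ideal over `p` of the ring `ZZ` of the algebraic integers in `ℂ` (if `p` is not a prime, any prime ideal). -/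
structure Place (p : ℕ) where
  ideal : Ideal ZZ
  isPrime : ideal.IsPrime
  mem : p.Prime → ((p : ℕ) : ZZ) ∈ ideal

attribute [instance] Place.isPrime

/-- The numbers which are integral at the place. -/
noncomputable abbrev Place.local {p : ℕ} (𝔓 : Place p) : Subring ℂ := OA 𝔓.ideal

lemma mem_local {p : ℕ} (𝔓 : Place p) (z : ℂ) : z ∈ 𝔓.local ↔ ∃ s : ZZ, s ∉ 𝔓.ideal ∧ IsIntegral ℤ ((s : ℂ) * z) :=
  Iff.rfl

/-- The polynomial map. -/
noncomputable def pmap (f : ℤ[X]) (z : ℂ) : ℂ := aeval z f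

/-- `z` is wandering: all elements of its orbit are different. -/
def Wandering (f : ℤ[X]) (z : ℂ) : Prop := ∀ i j : ℕ, i < j → (pmap f)^[i] z ≠ (pmap f)^[j] z

/-- At the place, `z` is integral and the orbit of `z` modulo `p` has at most `n` elements: two of the numbers
`z, f(z), …, f^n(z)` are congruent modulo `p` in the local ring. -/
def OrbitLE (f : ℤ[X]) {p : ℕ} (𝔓 : Place p) (n : ℕ) (z : ℂ) : Prop :=
  z ∈ 𝔓.local ∧ ∃ i j : ℕ, i < j ∧ j ≤ n ∧ ∃ y ∈ 𝔓.local, (pmap f)^[j] z - (pmap f)^[i] z = p * y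

/-- The orbit of `z` is short at the place: `p` does not divide the leading coefficient of `f`, and the orbit has at most
`n` elements modulo `p` for a number `n` with `n d ^ n ≤ κ p`. -/
def Short (f : ℤ[X]) (κ : ℝ) {p : ℕ} (𝔓 : Place p) (z : ℂ) : Prop :=
  ¬ (p : ℤ) ∣ f.leadingCoeff ∧ ∃ n : ℕ, (n : ℝ) * (f.natDegree : ℝ) ^ n ≤ κ * p ∧ OrbitLE f 𝔓 n z

open Classical in
/-- The number of the places over `p` of an algebraic number with the minimal polynomial `P` at which the orbit is short,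
counted with their local degrees: the number of the conjugates whose orbit is short at the fixed place `𝔓`. -/
noncomputable def shortPlaces (f : ℤ[X]) (κ : ℝ) {p : ℕ} (𝔓 : Place p) (P : ℤ[X]) : ℕ :=
  ((P.map (Int.castRingHom ℂ)).roots.filter (Short f κ 𝔓)).card

/-- The proportion of these places, counted with their local degrees. -/
noncomputable def proportion (f : ℤ[X]) (κ : ℝ) {p : ℕ} (𝔓 : Place p) (P : ℤ[X]) : ℝ :=
  shortPlaces f κ 𝔓 P / P.natDegree

/-- The primes `y < p ≤ x`. -/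
noncomputable def primesIn (y x : ℝ) : Finset ℕ := (Icc 1 ⌊x⌋₊).filter fun p : ℕ => p.Prime ∧ y < p

/-- The logarithm of the absolute value of the resultant of `F` and `F'`. -/
noncomputable def logDisc (F : ℤ[X]) : ℝ :=
  Real.log |((resultant F (derivative F) F.natDegree (F.natDegree - 1) : ℤ) : ℝ)|

/-- The sum of `ρ_p ^ 2 log p / p` over the primes `p ≤ N`, `N` the degree. -/
noncomputable def shortSum (f : ℤ[X]) (κ : ℝ) (𝔓 : ∀ p, Place p) (P : ℤ[X]) : ℝ :=
  ∑ p ∈ primesIn 0 P.natDegree, proportion f κ (𝔓 p) P ^ 2 * (Real.log p / p)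

/-- The algebraic numbers (up to conjugation) of Weil height at most `H` for which the sum of `(1 - ρ_p) log p / p` over the
primes `y < p ≤ x` is at most `(1 - β) log (x / y) + M`. There is no condition on their degree. -/
def Few (f : ℤ[X]) (κ : ℝ) (𝔓 : ∀ p, Place p) (β M y x H : ℝ) : Set ℤ[X] :=
  {P | IsMinpoly P ∧ HeightLE P H ∧
    ∑ p ∈ primesIn y x, (1 - proportion f κ (𝔓 p) P) * (Real.log p / p) ≤ (1 - β) * Real.log (x / y) + M}

/-- The same with a canonical height `Φ`: some conjugate `z` has `Φ z ≤ H`. -/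
def FewC (f : ℤ[X]) (Φ : ℂ → ℝ) (κ : ℝ) (𝔓 : ∀ p, Place p) (β M y x H : ℝ) : Set ℤ[X] :=
  {P | IsMinpoly P ∧ (∃ z, aeval z P = 0 ∧ Φ z ≤ H) ∧
    ∑ p ∈ primesIn y x, (1 - proportion f κ (𝔓 p) P) * (Real.log p / p) ≤ (1 - β) * Real.log (x / y) + M}

/-! ### The proof -/

open Pool.Agent.H446.AP6 (TestR) in
lemma testR_mono {κ W : ℝ} {g g' : ℂ → Prop} {p : ℕ} (h : TestR κ W g p) (hg : ∀ z, g' z → g z) : TestR κ W g' p := by
  obtain ⟨h1, O, B, h2, h3, h4, h5⟩ := h
  exact ⟨h1, O, B, h2, h3, h4, fun z hz => h5 z (hg z hz)⟩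

open Pool.Agent.H446.AP6 (TestR) in
lemma testR_false {κ W : ℝ} (hκ : 0 ≤ κ) (hW : 0 ≤ W) {p : ℕ} (hp : p.Prime) : TestR κ W (fun _ => False) p := by
  have := Fact.mk hp
  refine ⟨hp, _, 1, Pool.Agent.H446.AP6.isPl_pInt p, ?_, ?_, fun z hz => hz.elim⟩
  · rw [leadingCoeff_one]
    intro h
    exact hp.one_lt.ne' (by exact_mod_cast Int.eq_one_of_dvd_one (Int.natCast_nonneg p) h)
  · rw [natDegree_one, Nat.cast_zero]
    positivity

lemma test {f : ℤ[X]} (hf : 2 ≤ f.natDegree) {κ : ℝ} (hκ : 0 ≤ κ) {p : ℕ} (hp : p.Prime) (𝔓 : Place p) :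
    Pool.Agent.H446.AP6.TestR κ 0 (Short f κ 𝔓) p := by
  by_cases h : (p : ℤ) ∣ f.leadingCoeff
  · exact testR_mono (testR_false hκ le_rfl hp) fun z hz => hz.1 h
  · exact testR_mono (Pool.Agent.H446.AP9.testR_orb hf hκ hp h (Pool.Agent.H446.AP6.isPl_OA hp (𝔓.mem hp)))
      fun z hz => hz.2

lemma mem_primesIn {y x : ℝ} (hx : 0 ≤ x) {p : ℕ} : p ∈ primesIn y x ↔ p.Prime ∧ y < p ∧ (p : ℝ) ≤ x := by
  rw [primesIn, mem_filter, mem_Icc, Nat.le_floor_iff hx]
  constructor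
  · rintro ⟨⟨_, h2⟩, h3, h4⟩
    exact ⟨h3, h4, h2⟩
  · rintro ⟨h1, h2, h3⟩
    exact ⟨⟨h1.one_lt.le, h3⟩, h1, h2⟩

lemma mem_prs {y x : ℝ} (hx : 0 ≤ x) {p : ℕ} :
    p ∈ Pool.Agent.H446.AP2.prs y x ↔ p.Prime ∧ y < p ∧ (p : ℝ) ≤ x := by
  rw [Pool.Agent.H446.AP2.prs, mem_filter, Pool.Agent.H446.AP.mem_pr hx]
  tauto

lemma prs_eq {y x : ℝ} (hx : 0 ≤ x) : Pool.Agent.H446.AP2.prs y x = primesIn y x := by
  ext p
  rw [mem_prs hx, mem_primesIn hx]

lemma log_mm_le {P : ℤ[X]} (hP : IsMinpoly P) {H : ℝ} (h : HeightLE P H) :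
    Real.log (Pool.Agent.H446.AP.mm P) ≤ P.natDegree * H := by
  have h1 := Pool.Agent.H446.AP.one_le_mm hP.1.ne_zero
  have h2 := Real.log_le_log (by linarith) (show Pool.Agent.H446.AP.mm P ≤ _ from h)
  rwa [Real.log_exp] at h2

/-- The statement for finite sets. -/
lemma finite_sum {A : Set ℤ[X]} {x : ℝ} (hA : ∀ P ∈ A, 0 < P.natDegree)
    (h : ∀ S : Finset ℤ[X], (∀ P ∈ S, P ∈ A) → ∑ P ∈ S, (P.natDegree : ℝ) ≤ x) :
    A.Finite ∧ ∑ᶠ P ∈ A, (P.natDegree : ℝ) ≤ x := by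
  classical
  have hfin : A.Finite := by
    by_contra hinf
    obtain ⟨S, hS, hSc⟩ := Set.Infinite.exists_subset_card_eq hinf (⌊x⌋₊ + 1)
    have h2 := h S fun P hP => hS hP
    have h3 : (S.card : ℝ) ≤ ∑ P ∈ S, (P.natDegree : ℝ) := by
      calc (S.card : ℝ) = ∑ _P ∈ S, (1 : ℝ) := by simp
        _ ≤ _ := Finset.sum_le_sum fun P hP => by
            have := hA P (hS hP)
            exact_mod_cast this
    rw [hSc] at h3
    push_cast at h3
    have h4 := Nat.lt_floor_add_one x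
    linarith
  refine ⟨hfin, ?_⟩
  rw [finsum_mem_eq_finite_toFinset_sum _ hfin]
  exact h _ fun P hP => (Set.Finite.mem_toFinset hfin).1 hP

/-- Every algebraic number has a height, which is nonnegative. -/
lemma exists_height {P : ℤ[X]} (hP : IsMinpoly P) {z : ℂ} (hz : aeval z P = 0) :
    ∃ h : ℝ, 0 ≤ h ∧ IsHeight z h ∧ HeightLE P h := by
  have h1 : 1 ≤ (P.map (Int.castRingHom ℂ)).mahlerMeasure := Pool.Agent.H446.AP.one_le_mm hP.1.ne_zero
  have hN : (0 : ℝ) < P.natDegree := by exact_mod_cast hP.2.1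
  refine ⟨Real.log (P.map (Int.castRingHom ℂ)).mahlerMeasure / P.natDegree, by
    have := Real.log_nonneg h1
    positivity, ⟨P, hP, hz, ?_⟩, le_of_eq ?_⟩
  · rw [mul_div_cancel₀ _ hN.ne', Real.exp_log (by linarith)]
  · rw [mul_div_cancel₀ _ hN.ne', Real.exp_log (by linarith)]

lemma pow_iter (d n : ℕ) (z : ℂ) : (pmap ((X : ℤ[X]) ^ d))^[n] z = z ^ d ^ n := by
  induction n with
  | zero => simp
  | succ n ih =>
    rw [Function.iterate_succ_apply', ih, pmap, map_pow, aeval_X, ← pow_mul, pow_succ]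

/-- The solutions of `z ^ (d ^ n) = z`. -/
lemma pow_example {d n : ℕ} (hd : 2 ≤ d) (hn : 1 ≤ n) {κ : ℝ} (𝔓 : ∀ p, Place p) {β M y x : ℝ} (hβ : β ≤ 1)
    (hM : 0 ≤ M) (hy : 0 < y) (hyx : y ≤ x) (hκ : (n : ℝ) * (d : ℝ) ^ n ≤ κ * y) (hκ0 : 0 < κ) {z : ℂ}
    (hz : z ^ d ^ n = z) :
    ∃ P, aeval z P = 0 ∧ P ∈ Few (X ^ d) κ 𝔓 β M y x 0 := by
  classical
  have hdn : 1 < d ^ n := Nat.one_lt_pow (by omega) (by omega)
  have hQ : ((X : ℤ[X]) ^ d ^ n - X).Monic := by
    apply monic_X_pow_sub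
    rw [degree_X]
    exact_mod_cast hdn
  have hint : IsIntegral ℤ z := ⟨_, hQ, by
    rw [← aeval_def, map_sub, map_pow, aeval_X, hz, sub_self]⟩
  have hmon := minpoly.monic hint
  have hdvd : minpoly ℤ z ∣ (X : ℤ[X]) ^ d ^ n - X :=
    minpoly.isIntegrallyClosed_dvd hint (by rw [map_sub, map_pow, aeval_X, hz, sub_self])
  have hroot : ∀ w ∈ ((minpoly ℤ z).map (Int.castRingHom ℂ)).roots, w ^ d ^ n = w := by
    intro w hw
    have h1 := (mem_roots'.1 hw).2
    rw [IsRoot, eval_map] at h1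
    obtain ⟨R, hR⟩ := hdvd
    have h2 : aeval w ((X : ℤ[X]) ^ d ^ n - X) = 0 := by
      rw [hR, map_mul, aeval_def w (minpoly ℤ z)]
      have h3 : eval₂ (algebraMap ℤ ℂ) w (minpoly ℤ z) = 0 := h1
      rw [h3, zero_mul]
    rw [map_sub, map_pow, aeval_X, sub_eq_zero] at h2
    exact h2
  have hnorm : ∀ w ∈ ((minpoly ℤ z).map (Int.castRingHom ℂ)).roots, max 1 ‖w‖ = 1 := by
    intro w hw
    have h1 := congrArg (fun t : ℂ => ‖t‖) (hroot w hw)
    simp only [norm_pow] at h1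
    rw [max_eq_left]
    by_contra h2
    push Not at h2
    have h3 : ‖w‖ ^ 1 < ‖w‖ ^ d ^ n := pow_lt_pow_right₀ h2 hdn
    rw [pow_one] at h3
    linarith
  have hP : IsMinpoly (minpoly ℤ z) :=
    ⟨minpoly.irreducible hint, minpoly.natDegree_pos hint, by rw [hmon.leadingCoeff]; norm_num⟩
  refine ⟨minpoly ℤ z, minpoly.aeval ℤ z, hP, ?_, ?_⟩
  · rw [HeightLE, mul_zero, Real.exp_zero, mahlerMeasure_eq_leadingCoeff_mul_prod_roots,
      (hmon.map (Int.castRingHom ℂ)).leadingCoeff, norm_one, one_mul]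
    refine le_of_eq ?_
    rw [Multiset.map_congr rfl hnorm, Multiset.map_const', Multiset.prod_replicate, one_pow]
  · have h1 : ∑ p ∈ primesIn y x, (1 - proportion (X ^ d) κ (𝔓 p) (minpoly ℤ z)) * (Real.log p / p) = 0 := by
      refine Finset.sum_eq_zero fun p hp => ?_
      rw [mem_primesIn (hy.le.trans hyx)] at hp
      have h2 : shortPlaces (X ^ d) κ (𝔓 p) (minpoly ℤ z) = (minpoly ℤ z).natDegree := by
        rw [shortPlaces, Multiset.filter_eq_self.2]
        · have h1 := IsAlgClosed.splits ((minpoly ℤ z).map (Int.castRingHom ℂ))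
          rw [← h1.natDegree_eq_card_roots, natDegree_map_eq_of_injective (RingHom.injective_int _)]
        · intro w hw
          refine ⟨?_, n, ?_, ?_, 0, n, by omega, le_rfl, 0, (𝔓 p).local.zero_mem, ?_⟩
          · rw [leadingCoeff_X_pow]
            exact (Nat.prime_iff_prime_int.1 hp.1).not_dvd_one
          · rw [natDegree_X_pow]
            refine hκ.trans (mul_le_mul_of_nonneg_left hp.2.1.le hκ0.le)
          · have hwi : IsIntegral ℤ w := ⟨_, hQ, by
              rw [← aeval_def, map_sub, map_pow, aeval_X, hroot w hw, sub_self]⟩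
            exact (Pool.Agent.H446.AP6.isPl_OA hp.1 ((𝔓 p).mem hp.1)).int w hwi
          · rw [pow_iter, pow_iter, hroot w hw, pow_zero, pow_one, sub_self, mul_zero]
      have h3 : ((minpoly ℤ z).natDegree : ℝ) ≠ 0 := by exact_mod_cast hP.2.1.ne'
      rw [proportion, h2, div_self h3, sub_self, zero_mul]
    rw [h1]
    have h2 : 0 ≤ Real.log (x / y) := Real.log_nonneg (by rwa [one_le_div hy])
    have h3 : 0 ≤ (1 - β) * Real.log (x / y) := mul_nonneg (by linarith) h2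
    linarith

/-- **Theorem.** Let `κ > 0`, and consider the polynomials `f` of degree `d ≥ 2` with integral coefficients. Let `ρ_p(α)` be
the proportion of the places of `ℚ(α)` over `p` at which the orbit of `α` is short.

(0) Let `Q` be a finite set of primes, and let `S` be a nonempty finite set of minimal polynomials of algebraic numbers of
Weil height at most `H`. Let `F` be their product, `D` its degree, that is the number of these algebraic numbers with their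
conjugates, and `D_p` the number of the places over `p` of all of them at which the orbit is short. Then
`∑_{p ∈ Q} D_p ^ 2 log p / p ≤ κ log |Res(F, F')| + 2 κ ∑_{p ∈ Q} D_p log p` and
`log |Res(F, F')| ≤ 2 D ^ 2 H + 2 D log D`.

(1) There is a constant `C`, which depends only on `κ`, such that for every `f` and every algebraic number `α` of degree `N`
and of Weil height at most `H` the sum of `ρ_p(α) ^ 2 log p / p` over the primes `p ≤ N` is at most `2 κ H + C`.

(2) For `0 < β` and `M` there is a constant `C ≥ 1`, which depends only on `κ, β, M`, such that for every `f`, `y ≥ 1`,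
`H ≥ 0` and `x = C y exp (2 κ H / β ^ 2)` there are at most `x` algebraic numbers (with their conjugates) of Weil height at
most `H`, of all degrees together, for which the sum of `(1 - ρ_p(α)) log p / p` over the primes `y < p ≤ x` is at
most `(1 - β) log (x / y) + M`.

(3) For `f = X ^ d`, `β ≤ 1`, `M ≥ 0`, `x ≥ y ≥ n d ^ n / κ` all `d ^ n` solutions of `z ^ (d ^ n) = z` belong to the set in
(2), with `H = 0`.

Let `Φ` be the canonical height of a polynomial `f`.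

(4) There is a constant `C` such that `∑_{p ≤ N} ρ_p(α) ^ 2 log p / p ≤ 2 κ Φ(α) + C` for every algebraic number `α` of
degree `N`.

(5) (2) holds, with a constant which depends on `f`, with `Φ` instead of the Weil height.

(6) There is a constant `C` such that the inequality of the conjecture, `Φ(α) ≥ c / N` for all wandering `α`, for some
`c > 0`, is equivalent to its restriction to the wandering `α` with `∑_{p ≤ N} ρ_p(α) ^ 2 log p / p ≤ C`. -/
theorem result (κ : ℝ) (hκ : 0 < κ) :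
    (∀ f : ℤ[X], 2 ≤ f.natDegree → ∀ (𝔓 : ∀ p, Place p) (Q : Finset ℕ), (∀ p ∈ Q, p.Prime) →
      ∀ (S : Finset ℤ[X]) (H D : ℝ), S.Nonempty → 0 ≤ H → (∀ P ∈ S, IsMinpoly P ∧ HeightLE P H) →
        D = ∑ P ∈ S, (P.natDegree : ℝ) →
          ∑ p ∈ Q, (∑ P ∈ S, (shortPlaces f κ (𝔓 p) P : ℝ)) ^ 2 * Real.log p / p ≤
            κ * logDisc (∏ P ∈ S, P) + 2 * κ * ∑ p ∈ Q, (∑ P ∈ S, (shortPlaces f κ (𝔓 p) P : ℝ)) * Real.log p ∧
          logDisc (∏ P ∈ S, P) ≤ 2 * D ^ 2 * H + 2 * D * Real.log D) ∧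
    (∃ C : ℝ, ∀ f : ℤ[X], 2 ≤ f.natDegree → ∀ (𝔓 : ∀ p, Place p) (H : ℝ) (P : ℤ[X]), 0 ≤ H → IsMinpoly P →
      HeightLE P H → shortSum f κ 𝔓 P ≤ 2 * κ * H + C) ∧
    (∀ β M : ℝ, 0 < β → ∃ C : ℝ, 1 ≤ C ∧ ∀ f : ℤ[X], 2 ≤ f.natDegree → ∀ (𝔓 : ∀ p, Place p) (y H x : ℝ), 1 ≤ y →
      0 ≤ H → x = C * y * Real.exp (2 * κ * H / β ^ 2) →
        (Few f κ 𝔓 β M y x H).Finite ∧ ∑ᶠ P ∈ Few f κ 𝔓 β M y x H, (P.natDegree : ℝ) ≤ x) ∧
    (∀ (d n : ℕ) (𝔓 : ∀ p, Place p) (β M y x : ℝ), 2 ≤ d → 1 ≤ n → β ≤ 1 → 0 ≤ M → 0 < y → y ≤ x →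
      (n : ℝ) * (d : ℝ) ^ n ≤ κ * y → ∀ z : ℂ, z ^ d ^ n = z →
        ∃ P, aeval z P = 0 ∧ P ∈ Few (X ^ d) κ 𝔓 β M y x 0) ∧
    ∀ f : ℤ[X], 2 ≤ f.natDegree → ∀ Φ : ℂ → ℝ, IsCanonicalHeight f Φ →
      (∃ C : ℝ, ∀ (𝔓 : ∀ p, Place p) (P : ℤ[X]) (α : ℂ), IsMinpoly P → aeval α P = 0 →
        shortSum f κ 𝔓 P ≤ 2 * κ * Φ α + C) ∧
      (∀ β M : ℝ, 0 < β → ∃ C : ℝ, 1 ≤ C ∧ ∀ (𝔓 : ∀ p, Place p) (y H x : ℝ), 1 ≤ y → 0 ≤ H →
        x = C * y * Real.exp (2 * κ * H / β ^ 2) →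
          (FewC f Φ κ 𝔓 β M y x H).Finite ∧ ∑ᶠ P ∈ FewC f Φ κ 𝔓 β M y x H, (P.natDegree : ℝ) ≤ x) ∧
      ∃ C : ℝ, ∀ 𝔓 : ∀ p, Place p,
        ((∃ c : ℝ, 0 < c ∧ ∀ (P : ℤ[X]) (α : ℂ), IsMinpoly P → aeval α P = 0 → Wandering f α →
          c / P.natDegree ≤ Φ α) ↔
        ∃ c : ℝ, 0 < c ∧ ∀ (P : ℤ[X]) (α : ℂ), IsMinpoly P → aeval α P = 0 → Wandering f α →
          shortSum f κ 𝔓 P ≤ C → c / P.natDegree ≤ Φ α) := by
  classical
  have hone : ∃ C : ℝ, ∀ f : ℤ[X], 2 ≤ f.natDegree → ∀ (𝔓 : ∀ p, Place p) (H : ℝ) (P : ℤ[X]), 0 ≤ H → IsMinpoly P →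
      HeightLE P H → shortSum f κ 𝔓 P ≤ 2 * κ * H + C := by
    obtain ⟨C, -, hC⟩ := Pool.Agent.H446.AP6.single' hκ le_rfl
    refine ⟨C, fun f hf 𝔓 H P hH hP hPH => ?_⟩
    have h1 := hC (fun p => Short f κ (𝔓 p)) 0 H hH P hP (log_mm_le hP hPH) fun p hp => by
      rw [mem_prs (Nat.cast_nonneg _)] at hp
      exact test hf hκ.le hp.1 (𝔓 p)
    rw [prs_eq (Nat.cast_nonneg _)] at h1
    exact h1
  have hset : ∀ β M : ℝ, 0 < β → ∃ C : ℝ, 1 ≤ C ∧ ∀ f : ℤ[X], 2 ≤ f.natDegree → ∀ (𝔓 : ∀ p, Place p) (y H x x' : ℝ),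
      1 ≤ y → 0 ≤ H → x = C * y * Real.exp (2 * κ * H / β ^ 2) → x' = x → ∀ S : Finset ℤ[X],
        (∀ P ∈ S, P ∈ Few f κ 𝔓 β M y x' H) → ∑ P ∈ S, (P.natDegree : ℝ) ≤ x := by
    intro β M hβ
    obtain ⟨C, hC1, hC⟩ := Pool.Agent.H446.AP6.count' hκ le_rfl hβ M
    refine ⟨C, hC1, fun f hf 𝔓 y H x x' hy hH hx hxx S hS => ?_⟩
    rw [hxx] at hS
    have hx0 : 0 ≤ x := by
      rw [hx]
      positivity
    refine hC (fun p => Short f κ (𝔓 p)) y H x hy hH hx (fun p hp => ?_) S fun P hP => ?_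
    · rw [mem_prs hx0] at hp
      exact test hf hκ.le hp.1 (𝔓 p)
    · obtain ⟨h1, h2, h3⟩ := hS P hP
      refine ⟨h1, log_mm_le h1 h2, ?_⟩
      unfold Pool.Agent.H446.AP6.badP
      rw [prs_eq hx0]
      exact h3
  have hcan : ∀ f : ℤ[X], 2 ≤ f.natDegree → ∀ Φ : ℂ → ℝ, IsCanonicalHeight f Φ → ∃ C : ℝ,
      ∀ (𝔓 : ∀ p, Place p) (P : ℤ[X]) (α : ℂ), IsMinpoly P → aeval α P = 0 →
        shortSum f κ 𝔓 P ≤ 2 * κ * Φ α + C := by
    intro f hf Φ hΦ
    obtain ⟨C, hC⟩ := hone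
    obtain ⟨C₁, hC₁⟩ := hΦ.near
    refine ⟨2 * κ * C₁ + C, fun 𝔓 P α hP hα => ?_⟩
    obtain ⟨h, hh0, hh, hle⟩ := exists_height hP hα
    have h1 := hC f hf 𝔓 h P hh0 hP hle
    have h2 := (abs_le.1 (hC₁ α h hh)).1
    nlinarith
  refine ⟨?_, hone, ?_, ?_, ?_⟩
  · intro f hf 𝔓 Q hQ S H D hS hH hSH hD
    have h0 := Pool.Agent.H446.AP4.log_rd_pd_le hS hH
      (fun P hP => ⟨(hSH P hP).1, log_mm_le (hSH P hP).1 (hSH P hP).2⟩) hD
    have h1 := Pool.Agent.H446.AP6.core_disc' hκ le_rfl (G := fun p => Short f κ (𝔓 p)) Q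
      (fun p hp => test hf hκ.le (hQ p hp) (𝔓 p)) hS fun P hP => (hSH P hP).1
    have h2 : ∀ p, (Pool.Agent.H446.AP6.dgp (fun p => Short f κ (𝔓 p)) S p : ℝ) =
        ∑ P ∈ S, (shortPlaces f κ (𝔓 p) P : ℝ) := by
      intro p
      unfold Pool.Agent.H446.AP6.dgp
      push_cast
      rfl
    simp only [h2] at h1
    have h3 : ∑ p ∈ Q, (∑ P ∈ S, (shortPlaces f κ (𝔓 p) P : ℝ)) ^ 2 * Real.log p / p =
        ∑ p ∈ Q, Real.log p * ((∑ P ∈ S, (shortPlaces f κ (𝔓 p) P : ℝ)) ^ 2 / (p + 0)) := by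
      refine Finset.sum_congr rfl fun p _ => ?_
      rw [add_zero]
      ring
    have h4 : ∑ p ∈ Q, (∑ P ∈ S, (shortPlaces f κ (𝔓 p) P : ℝ)) * Real.log p =
        ∑ p ∈ Q, Real.log p * ∑ P ∈ S, (shortPlaces f κ (𝔓 p) P : ℝ) :=
      Finset.sum_congr rfl fun p _ => mul_comm _ _
    rw [h3, h4]
    refine ⟨h1, h0.trans (le_of_eq ?_)⟩
    ring
  · intro β M hβ
    obtain ⟨C, hC1, hC⟩ := hset β M hβ
    refine ⟨C, hC1, fun f hf 𝔓 y H x hy hH hx => ?_⟩
    exact finite_sum (fun P hP => hP.1.2.1) (hC f hf 𝔓 y H x x hy hH hx rfl)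
  · intro d n 𝔓 β M y x hd hn hβ hM hy hyx hκ' z hz
    exact pow_example hd hn 𝔓 hβ hM hy hyx hκ' hκ hz
  · intro f hf Φ hΦ
    refine ⟨hcan f hf Φ hΦ, ?_, ?_⟩
    · intro β M hβ
      obtain ⟨C, hC1, hC⟩ := hset β M hβ
      obtain ⟨C₁, hC₁⟩ := hΦ.near
      refine ⟨C * Real.exp (2 * κ * |C₁| / β ^ 2), ?_, fun 𝔓 y H x hy hH hx => ?_⟩
      · have h1 : 1 ≤ Real.exp (2 * κ * |C₁| / β ^ 2) := Real.one_le_exp (by positivity)
        nlinarith
      have hx' : x = C * y * Real.exp (2 * κ * (H + |C₁|) / β ^ 2) := by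
        rw [hx, show 2 * κ * (H + |C₁|) / β ^ 2 = 2 * κ * H / β ^ 2 + 2 * κ * |C₁| / β ^ 2 by ring, Real.exp_add]
        ring
      refine finite_sum (fun P hP => hP.1.2.1) fun S hS => ?_
      refine hC f hf 𝔓 y (H + |C₁|) x x hy (by positivity) hx' rfl S fun P hP => ?_
      obtain ⟨h1, ⟨z, hz, h2⟩, h3⟩ := hS P hP
      refine ⟨h1, ?_, h3⟩
      obtain ⟨h, hh0, hh, hle⟩ := exists_height h1 hz
      refine le_trans hle (Real.exp_le_exp.2 (mul_le_mul_of_nonneg_left ?_ (Nat.cast_nonneg _)))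
      have h4 := (abs_le.1 (hC₁ z h hh)).1
      have h5 := le_abs_self C₁
      linarith
    · obtain ⟨C, hC⟩ := hcan f hf Φ hΦ
      refine ⟨C + 2 * κ, fun 𝔓 => ⟨?_, ?_⟩⟩
      · rintro ⟨c, hc, h⟩
        exact ⟨c, hc, fun P α hP hα hw _ => h P α hP hα hw⟩
      · rintro ⟨c, hc, h⟩
        refine ⟨min c 1, lt_min hc one_pos, fun P α hP hα hw => ?_⟩
        have hN : (1 : ℝ) ≤ P.natDegree := by exact_mod_cast hP.2.1
        by_cases h1 : shortSum f κ 𝔓 P ≤ C + 2 * κ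
        · refine le_trans ?_ (h P α hP hα hw h1)
          gcongr
          exact min_le_left _ _
        · have h2 := hC 𝔓 P α hP hα
          push Not at h1
          have h3 : 1 < Φ α := by
            by_contra h4
            push Not at h4
            nlinarith
          have h4 : min c 1 / P.natDegree ≤ 1 := by
            rw [div_le_one (by linarith)]
            exact (min_le_right _ _).trans hN
          linarith

end Pool.Agent.Results.MP_2194ec_nt.ShortOrbits
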